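import Pool.Agent.TH839.ZT.Stm

/-!
# Taylor's formula with integral remainder along a segment
-/

set_option autoImplicit false

namespace Pool.Agent.TH364.ZT

open Pool.Agent.TH839.ZT

theorem contD {X : ℂ → ℂ} (hX : Differentiable ℂ X) (k : ℕ) : Continuous (iteratedDeriv k X) :=
  (hX.contDiff (n := (k : ℕ∞))).continuous_iteratedDeriv k le_rfl

theorem hasD {X : ℂ → ℂ} (hX : Differentiable ℂ X) (k : ℕ) (z : ℂ) :
    HasDerivAt (iteratedDeriv k X) (iteratedDeriv (k + 1) X z) z := by
  have h1 : Differentiable ℂ (iteratedDeriv k X) :=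
    (hX.contDiff (n := ((k + 1 : ℕ) : ℕ∞))).differentiable_iteratedDeriv k
      (by exact_mod_cast Nat.lt_succ_self k)
  rw [iteratedDeriv_succ]
  exact (h1 z).hasDerivAt

theorem hasD2 {X : ℂ → ℂ} (hX : Differentiable ℂ X) (k : ℕ) (s e : ℂ) (v : ℝ) :
    HasDerivAt (fun v : ℝ => iteratedDeriv k X (s - v * e)) (-(iteratedDeriv (k + 1) X (s - v * e) * e))
      v := by
  have h1 : HasDerivAt (fun z : ℂ => s - z * e) (-e) (v : ℂ) := by
    have := ((hasDerivAt_id (v : ℂ)).mul_const e).const_sub s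
    simpa using this
  have h2 := (hasD hX k (s - v * e)).comp (v : ℂ) h1
  have h3 := h2.comp_ofReal
  have h4 : iteratedDeriv (k + 1) X (s - v * e) * (-e) = -(iteratedDeriv (k + 1) X (s - v * e) * e) := by
    ring
  rw [h4] at h3
  exact h3

theorem cont2 {X : ℂ → ℂ} (hX : Differentiable ℂ X) (k j : ℕ) (s e c : ℂ) :
    Continuous (fun v : ℝ => iteratedDeriv k X (s - v * e) * (v * e) ^ j / c * e) := by
  have h1 := contD hX k
  have h2 : Continuous (fun v : ℝ => s - (v : ℂ) * e) := by fun_prop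
  have h3 : Continuous (fun v : ℝ => iteratedDeriv k X (s - v * e)) := h1.comp h2
  fun_prop

theorem base {X : ℂ → ℂ} (hX : Differentiable ℂ X) (s e : ℂ) (R : ℝ) :
    X s = X (s - R * e) + ∫ v in (0 : ℝ)..R, iteratedDeriv 1 X (s - v * e) * e := by
  have h1 : ∀ v ∈ Set.uIcc (0 : ℝ) R, HasDerivAt (fun v : ℝ => -iteratedDeriv 0 X (s - v * e))
      (iteratedDeriv 1 X (s - v * e) * e) v := by
    intro v _
    have := (hasD2 hX 0 s e v).neg
    rw [neg_neg] at this
    exact this
  have h2 : IntervalIntegrable (fun v : ℝ => iteratedDeriv 1 X (s - v * e) * e)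
      MeasureTheory.volume 0 R := by
    apply Continuous.intervalIntegrable
    have := cont2 hX 1 0 s e 1
    simpa using this
  rw [intervalIntegral.integral_eq_sub_of_hasDerivAt h1 h2]
  simp only [iteratedDeriv_zero, Complex.ofReal_zero, zero_mul, sub_zero]
  ring

theorem step {X : ℂ → ℂ} (hX : Differentiable ℂ X) (s e : ℂ) (R : ℝ) (n : ℕ) (hn : 1 ≤ n) :
    ∫ v in (0 : ℝ)..R, iteratedDeriv n X (s - v * e) * (v * e) ^ (n - 1) /
      ((n - 1).factorial : ℂ) * e =
    iteratedDeriv n X (s - R * e) * (R * e) ^ n / (n.factorial : ℂ) +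
    ∫ v in (0 : ℝ)..R, iteratedDeriv (n + 1) X (s - v * e) * (v * e) ^ n /
      (n.factorial : ℂ) * e := by
  obtain ⟨j, rfl⟩ : ∃ j, n = j + 1 := ⟨n - 1, by omega⟩
  rw [Nat.add_sub_cancel]
  have hf : ((j + 1).factorial : ℂ) = (j + 1) * (j.factorial : ℂ) := by
    rw [Nat.factorial_succ]; push_cast; ring
  have hf0 : (j.factorial : ℂ) ≠ 0 := by exact_mod_cast Nat.factorial_ne_zero j
  have hj0 : (j : ℂ) + 1 ≠ 0 := by exact_mod_cast Nat.succ_ne_zero j
  have h1 : ∀ v ∈ Set.uIcc (0 : ℝ) R, HasDerivAt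
      (fun v : ℝ => iteratedDeriv (j + 1) X (s - v * e) * (v * e) ^ (j + 1) / ((j + 1).factorial : ℂ))
      (iteratedDeriv (j + 1) X (s - v * e) * (v * e) ^ j / (j.factorial : ℂ) * e -
        iteratedDeriv (j + 1 + 1) X (s - v * e) * (v * e) ^ (j + 1) / ((j + 1).factorial : ℂ) * e) v := by
    intro v _
    have h2 := hasD2 hX (j + 1) s e v
    have h3 : HasDerivAt (fun z : ℂ => (z * e) ^ (j + 1)) (((j : ℂ) + 1) * (v * e) ^ j * e) (v : ℂ) := by
      have h4 := ((hasDerivAt_id' (v : ℂ)).mul_const e).fun_pow (j + 1)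
      simpa using h4
    have h5 := (h2.mul h3.comp_ofReal).div_const ((j + 1).factorial : ℂ)
    refine HasDerivAt.congr_deriv h5 ?_
    rw [hf]
    field_simp
    ring
  have h2 := intervalIntegral.integral_eq_sub_of_hasDerivAt h1
    (((cont2 hX (j + 1) j s e (j.factorial : ℂ)).sub
      (cont2 hX (j + 1 + 1) (j + 1) s e ((j + 1).factorial : ℂ))).intervalIntegrable _ _)
  rw [intervalIntegral.integral_sub ((cont2 hX (j + 1) j s e (j.factorial : ℂ)).intervalIntegrable _ _)
    ((cont2 hX (j + 1 + 1) (j + 1) s e ((j + 1).factorial : ℂ)).intervalIntegrable _ _)] at h2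
  simp only [Complex.ofReal_zero, zero_mul, ne_eq, Nat.add_eq_zero_iff, one_ne_zero, and_false,
    not_false_eq_true, zero_pow, mul_zero, zero_div, sub_zero] at h2
  rw [sub_eq_iff_eq_add] at h2
  exact h2

/-- (TAY) -/
theorem tay : S_TAY := by
  intro X n s e R hX hn _
  induction n, hn using Nat.le_induction with
  | base =>
    have h := base hX s e R
    rw [Finset.sum_range_one]
    simpa using h
  | succ n hn ih =>
    rw [Finset.sum_range_succ, add_assoc, Nat.add_sub_cancel, ← step hX s e R n hn]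
    exact ih

end Pool.Agent.TH364.ZT
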